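import Pool.Agent.Q137.UO.Codim

/-!
# The rational Abel–Jacobi map over `ℚ̄` in one codimension, and cubic hypersurfaces over `ℚ`

For a smooth projective scheme `Y` over `ℚ` let `A^n(Y) = CH^n(Y_ℚ̄; ℚ)`, and let `B^n(Y)` be the image
of `A^n(Y)` in the Deligne cohomology `H^{2n}_D(Y_ℂ, ℚ(n))`. The kernel of the surjection
`A^n(Y) → B^n(Y)` is the kernel of `Φ_{n,ℚ} : CH^n_hom(Y_ℚ̄; ℚ) → J^n(Y(ℂ)) ⊗ ℚ`. Both are additive
functors of the Chow motive of `Y`.

For a separated scheme `X` of finite type over `ℚ` let `W(X)` be the weight complex (Gillet, Soulé; a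
complex of Chow motives over `ℚ` with rational coefficients, for the cohomology with compact supports;
`W(X) = h(X)` for smooth projective `X`), and put `A^{n,i}(X) = H^i(A^n(W(X)))` and
`B^{n,i}(X) = H^i(B^n(W(X)))`. `BijAt C Prod.fst n X` says that the maps `A^{n,i}(X) → B^{n,i}(X)` are
isomorphisms for this `n` and all `i`. For smooth projective `Y` the groups for `i ≠ 0` are zero, and
`BijAt C Prod.fst n Y` says that `Φ_{n,ℚ}` is injective for `Y_ℚ̄`.

Every smooth projective variety over `ℚ̄` is an open and closed subscheme of `Y_ℚ̄` for a smooth projective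
scheme `Y` over `ℚ` (a model over a number field, regarded as a scheme over `ℚ`).

**Theorem.** (1) For every `n`, the map `Φ_{n,ℚ}` is injective for all smooth projective varieties over
`ℚ̄` if and only if the maps `A^{n+a-1,i}(X_H) → B^{n+a-1,i}(X_H)` are isomorphisms for all `a`, all finite
sets `H` of triples `(i, j, l)` with `1 ≤ i ≤ a` and all `i`, where `X_H` is the affine cubic hypersurface
`∑_{(i, j, l) ∈ H} x_i y_j z_l = 1` over `ℚ`. The first open case is `n = 2`, which is about the index
`a + 1`.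

(2) The maps `A^{m,i} → B^{m,i}` are isomorphisms for `m ≤ a` and the hypersurfaces
`T(x, y, z) = 1` of all rational trilinear forms `T` in `a` variables `x` (any of the three blocks), with
any numbers of variables `y` and `z`.
-/

set_option autoImplicit false

open CategoryTheory CategoryTheory.Limits AlgebraicGeometry Pool.Agent.Y116.UV Pool.Agent.Z125.UN
  Pool.Agent.Q193.LT Pool.Agent.Q49.WU Pool.Agent.Q137.UO

universe w w'

namespace Pool.Agent.Results.MP_537ea0_ag.CodimensionByCodimension

/-- The algebraic closure of `ℚ`. -/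
abbrev Qb : Type := AlgebraicClosure ℚ

/-- The scheme `Y_ℚ̄`. -/
noncomputable def bc (Y : Sch ℚ) : Sch Qb :=
  (Over.pullback (Spec.map (CommRingCat.ofHom (algebraMap ℚ Qb)))).obj Y

/-- The groups `CH^n_hom(V; ℚ)` and `J^n(V(ℂ)) ⊗ ℚ` and the Abel–Jacobi maps `Φ_{n,ℚ}` of the problem,
for schemes `V` over `ℚ̄`. -/
structure AbelJacobi where
  /-- the cycles homologous to zero -/
  CHhom : ℕ → Sch Qb → ModuleCat.{w'} ℚ
  /-- the intermediate Jacobians, with rational coefficients -/
  J : ℕ → Sch Qb → ModuleCat.{w'} ℚ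
  /-- the Abel–Jacobi maps -/
  Φ : ∀ n V, CHhom n V ⟶ J n V

/-- `Φ_{n,ℚ}` is injective for `V`. -/
def InjectiveFor (D : AbelJacobi.{w'}) (n : ℕ) (V : Sch Qb) : Prop :=
  Function.Injective (D.Φ n V).hom

/-- `Φ_{n,ℚ}` is injective for all smooth projective varieties over `ℚ̄`. -/
def ProjectiveCase (D : AbelJacobi.{w'}) (n : ℕ) : Prop :=
  ∀ V : Sch Qb, SmoothProj V → InjectiveFor D n V

/-- What is used about the Abel–Jacobi maps: the description of the kernel by the maps from cycles to
Deligne cohomology, and the descent of varieties from `ℚ̄` to `ℚ`. -/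
structure Describes (D : AbelJacobi.{w'}) (C : PairData.{w} ℚ (ℤ × ℤ) ℚ) : Prop where
  kernel : ∀ (n : ℕ) (Y : Sch ℚ), SmoothProj Y → (InjectiveFor D n (bc Y) ↔ BijAt C Prod.fst n Y)
  descent : ∀ n : ℕ, ProjectiveCase D n ↔ ∀ Y : Sch ℚ, SmoothProj Y → InjectiveFor D n (bc Y)

/-- **The rational Abel–Jacobi map, one codimension at a time.** See the explanations above. Known cases
that are used: the point, and the indices `N ≤ 1` (divisors). -/
theorem result {D : AbelJacobi.{w'}} {C : PairData.{w} ℚ (ℤ × ℤ) ℚ} (h : Describes D C)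
    (weight : IsWeightPair C) (generated : GenAt C Prod.fst) (point : BijAll C (aff ℚ ℚ))
    (divisors : ∀ N : ℤ, N ≤ 1 → ∀ Y : Sch ℚ, SmoothProj Y → BijAt C Prod.fst N Y) :
    (∀ n : ℕ, ProjectiveCase D n ↔
      ∀ (a b c : ℕ) (H : Finset (Fin a × Fin b × Fin c)),
        BijAt C Prod.fst (n + (a - 1)) (tripS ℚ H)) ∧
    ∀ (a b c : ℕ) (T : Fin a → Fin b → Fin c → ℚ) (m : ℤ), m ≤ a →
      BijAt C Prod.fst m (hypS T) := by
  refine ⟨fun n => (h.descent n).trans (Iff.trans ?_
      (codim_graphs generated weight point frac_rat n)),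
    fun a b c T m hm => low_forms generated weight point divisors T (by linarith)⟩
  exact ⟨fun g Y hY => (h.kernel n Y hY).mp (g Y hY), fun g Y hY => (h.kernel n Y hY).mpr (g Y hY)⟩

end Pool.Agent.Results.MP_537ea0_ag.CodimensionByCodimension
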