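import Pool.Agent.Q72.DP.AJMain

/-!
# Injectivity of the Abel-Jacobi map in one codimension

`𝒱` is the class of smooth projective irreducible varieties over `k = ℚ̄` (or any class over a field,
closed under products, which contains the projective bundles over its members), `C` the Chow groups
with rational coefficients (in the form of their formal properties, `IsChowProj`), `H` a Weil
cohomology theory (`IsWeilProj`), `N X j ⊆ CH^j(X)` the kernel of the Abel-Jacobi map (`IsAJKernel`),
and `B` the Grothendieck rings of vector bundles with their known properties (`IsKTheory`).

Theorem. For every variety `X` and every `c ≥ 1` the following are equivalent: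
* the Abel-Jacobi map of `X` is injective in codimension `c`;
* every vector bundle of rank `m ≥ c` on `X` whose Chern classes `c_i` are zero in the Chow groups for
  `0 < i < c` and Abel-Jacobi trivial for `i ≥ c` has `c_c = 0`;
* for every vector bundle of rank `m ≥ c` on `X`, with `ξ` the class of `O(1)` on the projective bundle
  `f : P → X`: if `f_* (ξ^(m-1+i)) = 0` for `0 < i < c` and `ξ^m` is in the kernel of the Abel-Jacobi
  map of `P`, then `f_* (ξ^(m-1+c)) = 0`.
-/

open CategoryTheory AlgebraicGeometry

set_option autoImplicit false

universe u v w

namespace Pool.Agent.Results.MP_537ea0_ag.OneCodimension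

open Pool.Agent.H914 Pool.Agent.W492.BB Pool.Agent.TH133 Pool.Agent.Q72.DP

/-- The Abel-Jacobi map of `X` in codimension `c` is injective if and only if the vector bundles with
vanishing Chern classes in codimensions `< c` and Abel-Jacobi trivial ones in codimensions `≥ c` have
`c_c = 0`, if and only if the corresponding statement on the powers of the tautological classes
holds. -/
theorem result {k : Type u} [Field k] {𝒱 : VarClass k} (C : TheoryData.{u, v, 0} 𝒱 ℚ)
    [IsChowProj C] {K : Type w} [Field K] (H : WeilTheoryData.{u, v, w} C K) [IsWeilProj H]
    (N : ∀ X : 𝒱.Obj, ℕ → Submodule ℚ (C.A X)) (hN : IsAJKernel H N)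
    (B : BundleData C) (hB : B.IsKTheory) (X : 𝒱.Obj) (c : ℕ) (hc : 1 ≤ c) :
    [N X c = ⊥, CodimChern N B X c, CodimTaut N B X c].TFAE :=
  inj_codim hB hN.adequate X hc

end Pool.Agent.Results.MP_537ea0_ag.OneCodimension
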