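import Pool.Agent.Q193.LT.Cyc

/-!
# The rational Abel–Jacobi map over `ℚ̄` and cubic hypersurfaces over `ℚ`

For a smooth projective scheme `Y` over `ℚ` let `A^n(Y) = CH^n(Y_ℚ̄; ℚ)`, and let `B^n(Y)` be the image
of `A^n(Y)` in the Deligne cohomology `H^{2n}_D(Y_ℂ, ℚ(n))`, an extension of the group of the rational
Hodge classes of codimension `n` by `J^n(Y_ℂ) ⊗ ℚ`. The kernel of the surjection `A^n(Y) → B^n(Y)` is
the kernel of `Φ_{n,ℚ} : CH^n_hom(Y_ℚ̄; ℚ) → J^n(Y(ℂ)) ⊗ ℚ`. Both are additive functors of the Chow motive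
of `Y`.

For a separated scheme `X` of finite type over `ℚ` let `W(X)` be the weight complex (Gillet, Soulé; a
complex of Chow motives over `ℚ` with rational coefficients, for the cohomology with compact supports;
`W(X) = h(X)` for smooth projective `X`), and put `A^{n,i}(X) = H^i(A^n(W(X)))` and
`B^{n,i}(X) = H^i(B^n(W(X)))`. `BijAll C X` says that the maps `A^{n,i}(X) → B^{n,i}(X)` are isomorphisms
for all `n` and `i`. For smooth projective `Y` the groups for `i ≠ 0` are zero, and `BijAll C Y` says that
`Φ_{n,ℚ}` is injective for `Y_ℚ̄` and all `n`.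

Every smooth projective variety over `ℚ̄` is an open and closed subscheme of `Y_ℚ̄` for a smooth projective
scheme `Y` of the same dimension over `ℚ` (a model over a number field, regarded as a scheme over `ℚ`).

For a finite set `H` of triples `(i, j, l)` (a tripartite hypergraph) let `X_H` be the smooth affine cubic
hypersurface `∑_{(i, j, l) ∈ H} x_i y_j z_l = 1` over `ℚ`.

**Theorem.** (1) The map `Φ_{k,ℚ}` is injective for all smooth projective varieties `V` over `ℚ̄` and all
`k` if and only if the maps `A^{n,i}(X_H) → B^{n,i}(X_H)` are isomorphisms for all finite sets `H` of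
triples. In particular the latter follows from the injectivity for all smooth quasiprojective `V`.

(2) For all `n`, the map `Φ_{k,ℚ}` is injective for all smooth projective varieties of dimension at most
`n` over `ℚ̄` and all `k` if and only if the maps are isomorphisms for the hypersurfaces `T(x, y, z) = 1`
of all trilinear forms `T` with rational coefficients such that one of the three blocks of variables has
at most `n + 2` variables (the other two blocks are arbitrary).

(3) Unconditionally, the maps are isomorphisms if one of the blocks has at most three variables.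
-/

set_option autoImplicit false

open CategoryTheory CategoryTheory.Limits AlgebraicGeometry Pool.Agent.Y116.UV Pool.Agent.Z125.UN
  Pool.Agent.Q193.LT

universe w w'

namespace Pool.Agent.Results.MP_537ea0_ag.RationalCubics

/-- The field `ℚ̄` of algebraic numbers -/
abbrev Qb : Type := AlgebraicClosure ℚ

/-- The groups `CH^k_hom(V/ℚ̄; ℚ)` and `J^k(V(ℂ)) ⊗ ℚ` and the maps `Φ_{k,ℚ}` between them, for schemes
`V` over `ℚ̄`. -/
structure AbelJacobi where
  /-- the cycles homologous to zero -/
  CHhom : ℕ → Sch Qb → ModuleCat.{w'} ℚ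
  /-- the intermediate Jacobians, with rational coefficients -/
  J : ℕ → Sch Qb → ModuleCat.{w'} ℚ
  /-- the Abel–Jacobi maps -/
  Φ : ∀ k V, CHhom k V ⟶ J k V

/-- The maps `Φ_{k,ℚ}` are injective for the scheme `V` and all `k`. -/
def InjectiveFor (D : AbelJacobi.{w'}) (V : Sch Qb) : Prop :=
  ∀ k : ℕ, Function.Injective (D.Φ k V).hom

/-- `V` is smooth and quasiprojective: an open subscheme of a closed subscheme of a projective space. -/
def SmoothQuasiProj (V : Sch Qb) : Prop :=
  Smooth V.hom ∧ FT True V ∧ ∃ (n : ℕ) (W : Sch Qb) (j : V ⟶ W) (i : W ⟶ projSpace Qb n),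
    IsOpenImmersion j.left ∧ IsClosedImmersion i.left

/-- Question Q1: all smooth quasiprojective varieties over `ℚ̄`. -/
def AllQuasiProjective (D : AbelJacobi.{w'}) : Prop :=
  ∀ V : Sch Qb, SmoothQuasiProj V → InjectiveFor D V

/-- The base change `Y_ℚ̄` of a scheme over `ℚ`. -/
noncomputable def bc (Y : Sch ℚ) : Sch Qb :=
  (Over.pullback (Spec.map (CommRingCat.ofHom (algebraMap ℚ Qb)))).obj Y

/-- What is used about the Abel–Jacobi maps: the description of the kernel for smooth projective schemes
by the maps from cycles to Deligne cohomology, and the descent from `ℚ̄` to `ℚ` explained above. -/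
structure Describes (D : AbelJacobi.{w'}) (C : PairData.{w} ℚ (ℤ × ℤ) ℚ) : Prop where
  kernel : ∀ Y : Sch ℚ, SmoothProj Y → (InjectiveFor D (bc Y) ↔ BijAll C Y)
  descent : ∀ n : ℕ,
    (∀ V : Sch Qb, SmoothProj V → topologicalKrullDim V.left ≤ n → InjectiveFor D V) ↔
      ∀ Y : Sch ℚ, SmoothProj Y → topologicalKrullDim Y.left ≤ n → InjectiveFor D (bc Y)
  finite : ∀ V : Sch Qb, SmoothProj V → ∃ n : ℕ, topologicalKrullDim V.left ≤ n

/-- The maps are isomorphisms for all hypersurfaces `T = 1` with a block of at most `m` variables. -/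
def Forms (C : PairData.{w} ℚ (ℤ × ℤ) ℚ) (m : ℕ) : Prop :=
  ∀ (a b c : ℕ) (T : Fin a → Fin b → Fin c → ℚ), (a ≤ m ∨ b ≤ m ∨ c ≤ m) → BijAll C (hypS T)

/-- The maps are isomorphisms for all hypersurfaces `X_H`. -/
def Hypergraphs (C : PairData.{w} ℚ (ℤ × ℤ) ℚ) : Prop :=
  ∀ (a b c : ℕ) (H : Finset (Fin a × Fin b × Fin c)), BijAll C (tripS ℚ H)

/-- **The rational Abel–Jacobi map over `ℚ̄` and cubic hypersurfaces over `ℚ`.** See the explanations
above. The hypothesis `generated` is the statement that smooth projective schemes generate, in each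
dimension (Gillet and Soulé, from Hironaka's theorem). Known cases that are used: the point, and
curves. -/
theorem result {D : AbelJacobi.{w'}} {C : PairData.{w} ℚ (ℤ × ℤ) ℚ} (h : Describes D C)
    (weight : IsWeightPair C) (generated : WeightGen C) (point : BijAll C (aff ℚ ℚ))
    (curves : ∀ V : Sch Qb, SmoothProj V → topologicalKrullDim V.left ≤ (1 : ℕ) →
      InjectiveFor D V) :
    ((∀ V : Sch Qb, SmoothProj V → InjectiveFor D V) ↔ Hypergraphs C) ∧
    (AllQuasiProjective D → Hypergraphs C) ∧
    (∀ n : ℕ, (∀ V : Sch Qb, SmoothProj V → topologicalKrullDim V.left ≤ n →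
      InjectiveFor D V) ↔ Forms C (n + 2)) ∧
    Forms C 3 := by
  have e : ∀ n : ℕ, (∀ V : Sch Qb, SmoothProj V → topologicalKrullDim V.left ≤ n →
      InjectiveFor D V) ↔ Forms C (n + 2) := by
    intro n
    refine (h.descent n).trans (Iff.trans ?_ (wg_dim generated weight point n))
    exact ⟨fun g Y hY hn => (h.kernel Y hY).mp (g Y hY hn),
      fun g Y hY hn => (h.kernel Y hY).mpr (g Y hY hn)⟩
  have e1 : (∀ V : Sch Qb, SmoothProj V → InjectiveFor D V) ↔ Hypergraphs C := by
    constructor
    · intro g a b c H
      have h1 : ∀ (a b c : ℕ) (T : Fin a → Fin b → Fin c → ℚ), BijAll C (hypS T) :=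
        fun a b c T => (e a).mp (fun V hV _ => g V hV) a b c T (Or.inl (by omega))
      exact (all_iff (bnd_pair weight point)).mpr h1 _ (ft_aff True)
    · intro g V hV
      obtain ⟨n, hn⟩ := h.finite V hV
      refine (h.descent n).mpr (fun Y hY _ => (h.kernel Y hY).mpr ?_) V hV hn
      exact (wg_graph generated weight point frac_rat).mpr g Y hY
  refine ⟨e1, fun g => e1.mp fun V hV => g V ?_, e, (e 1).mp curves⟩
  obtain ⟨n, i, hi⟩ := hV.proj
  exact ⟨hV.smooth, hV.ft, n, V, 𝟙 V, i, by rw [Over.id_left]; infer_instance, hi⟩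

end Pool.Agent.Results.MP_537ea0_ag.RationalCubics
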